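import Pool.Agent.U691.DM.Anti
import Pool.Agent.U691.DM.Catalan

/-! MP_ec2393_nt: elements of the double shuffle Lie algebra, or only of `Lie[x₀, x₁]`, which are not zero in
depth one, of weights `m + 1` with `m` in a set of even numbers such that a prime `p` divides the binomial
coefficients between different elements of the set, freely generate a free Lie algebra under the Ihara bracket.

By Lucas' theorem this holds for every set of even numbers which are pairwise incomparable for the order of the
digits in base `p`, for instance if they have the same sum of digits: the weights `2 p^e + 1` of the theorem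
`PrimePowerWeights` of this page, the weights `2^a + 1` (`3, 5, 9, 17, …`), `2^a + 2^b + 1`, and so on.  There are
large infinite sets of this kind: the even numbers whose binary digits, read from the place `2` upwards, have more
ones than zeros for the first time at the leading digit; they are counted by the Catalan numbers.  So there is an
infinite set of odd weights with at least `x / (32 (log x)^(3/2))` elements up to `x`, for all `x ≥ 3`, such that
arbitrary elements of the double shuffle Lie algebra of these weights, not zero in depth one, freely generate a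
free Lie algebra. (The depth one parts of the elements of all odd weights do not: they satisfy the relations given
by the period polynomials.)

Proof. Let `L_m` be the operator `g ↦ f g + D_f g` for `f = (ad x₀)^m x₁`, `m` even. Modulo words with more letters
`x₁`, the coefficient of `L_m g` at `x₀^(k₁) x₁ ⋯ x₀^(k_d) x₁` is
`∑_i (binom(m, k_i) - binom(m, k_(i+1))) g(…, k_i + k_(i+1) - m, …) + [k_d = m] g(k_1, …, k_(d-1))`
for even `k_i`. If `m` and all the `k_i` are in the set, this is `[k_1 = m] g(k_2, …, k_d)` modulo `p`, because the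
sum telescopes. So the coefficient of `L_(m_1) ⋯ L_(m_d) 1` at `(k_1, …, k_d)` is `1` modulo `p` if
`(k_1, …, k_d) = (m_1, …, m_d)` and `0` otherwise, and these elements are linearly independent. -/

set_option autoImplicit false

namespace Pool.Agent.Results.MP_ec2393_nt.BinomialAntichains

open Pool.Agent.H777R4.DM

attribute [local instance 100] LieRing.ofAssociativeRing

/-- Arbitrary elements of `Lie[x₀, x₁]` of the weights `w₁, …, wₙ` with a nonzero coefficient at `x₀^(wᵢ - 1) x₁`
freely generate a free Lie algebra under the Ihara bracket: for all such `ψ₁, …, ψₙ` there is an injective linear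
map `φ` on `ℚ⟨X₁, …, Xₙ⟩` with `φ Xᵢ = ψᵢ` which carries the bracket `P Q - Q P` of the free Lie algebra on
`X₁, …, Xₙ` to the Ihara bracket. -/
def FreeWeights (n : ℕ) (w : Fin n → ℕ) : Prop :=
  ∀ ψ : Fin n → A, (∀ i, ψ i ∈ LieX) → (∀ i u, co (ψ i) u ≠ 0 → u.length = w i) →
    (∀ i, co (ψ i) (List.replicate (w i - 1) 0 ++ [1]) ≠ 0) →
    ∃ φ : Al (Fin n) →ₗ[ℚ] A, Function.Injective φ ∧ (∀ i, φ (wd [i]) = ψ i) ∧
      ∀ P ∈ LieN n, ∀ Q ∈ LieN n, φ (P * Q - Q * P) = ihara (φ P) (φ Q)

/-- **Theorem.** (1) Let `p` be a prime and let `m₁, …, mₙ` be positive even numbers such that `p` divides the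
binomial coefficients `binom(mᵢ, mⱼ)`, `i ≠ j`.  Then elements of `Lie[x₀, x₁]` of the weights `mᵢ + 1` which are
not zero in depth one freely generate a free Lie algebra under the Ihara bracket.

(2) There is an infinite set `M` of odd weights `≥ 3`, with at least `x / (32 (log x)^(3/2))` elements up to `x`
for all `x ≥ 3`, such that elements of `Lie[x₀, x₁]` of different weights in `M` which are not zero in depth one
freely generate a free Lie algebra under the Ihara bracket. -/
theorem result :
    (∀ (p n : ℕ) (m : Fin n → ℕ), p.Prime → (∀ i, Even (m i) ∧ 0 < m i) →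
      (∀ i j, i ≠ j → p ∣ (m i).choose (m j)) → FreeWeights n (fun i => m i + 1)) ∧
    ∃ M : Set ℕ, (∀ w ∈ M, Odd w ∧ 3 ≤ w) ∧
      (∀ x : ℕ, 3 ≤ x → (x : ℝ) / (32 * Real.log x ^ (3 / 2 : ℝ)) ≤ ((M ∩ Set.Iic x).ncard : ℝ)) ∧
      ∀ (n : ℕ) (w : Fin n → ℕ), Function.Injective w → (∀ i, w i ∈ M) → FreeWeights n w := by
  have h1 : ∀ (p n : ℕ) (m : Fin n → ℕ), p.Prime → (∀ i, Even (m i) ∧ 0 < m i) →
      (∀ i j, i ≠ j → p ∣ (m i).choose (m j)) → FreeWeights n (fun i => m i + 1) := by
    intro p n m hp hm hd ψ hL hw h1
    obtain ⟨b, hb⟩ : ∃ b : Fin n → ℕ, ∀ i, m i = 2 * b i :=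
      ⟨fun i => m i / 2, fun i => by
        obtain ⟨r, hr⟩ := (hm i).1
        show m i = 2 * (m i / 2)
        omega⟩
    refine ⟨PhiN ψ, Pool.Agent.U691.DM.main p hp n b (fun i => ?_) (fun i j hij => ?_) ψ hL
      (fun i u hu => ?_) (fun i => ?_), (Pool.Agent.H358R3.DM.taskFinalN n ψ).1,
      (Pool.Agent.H358R3.DM.taskFinalN n ψ).2⟩
    · have := (hm i).2
      rw [hb i] at this
      omega
    · rw [← hb i, ← hb j]
      exact hd i j hij
    · rw [← hb i]
      exact hw i u hu
    · have h2 := h1 i
      simp only [Nat.add_sub_cancel] at h2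
      rw [← hb i]
      exact h2
  refine ⟨h1, Pool.Agent.U691.DM.Wt, fun w hw => Pool.Agent.U691.DM.wt_odd hw,
    fun x hx => Pool.Agent.U691.DM.wt_large x hx, fun n w hinj hw => ?_⟩
  have h2 := h1 2 n (fun i => w i - 1) Nat.prime_two (fun i => ?_) (fun i j hij => ?_)
  · have h3 : (fun i => w i - 1 + 1) = w := by
      funext i
      have := (Pool.Agent.U691.DM.wt_odd (hw i)).2
      omega
    rw [h3] at h2
    exact h2
  · have h3 := Pool.Agent.U691.DM.wt_odd (hw i)
    obtain ⟨r, hr⟩ := h3.1
    refine ⟨⟨r, ?_⟩, ?_⟩
    · show w i - 1 = r + r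
      omega
    · show 0 < w i - 1
      omega
  · exact Pool.Agent.U691.DM.wt_dvd (hw i) (hw j) (fun h => hij (hinj h))

end Pool.Agent.Results.MP_ec2393_nt.BinomialAntichains
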