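import Pool.Agent.U691.LL.Top
import Pool.Agent.Y759.DS.Filt2
import Pool.Agent.H217R3.DM.Comp

/-!
# MP_ec2393_nt: in odd weight the layer of `dm` with four letters `x₀` is zero

Let `dm` be the double shuffle Lie algebra, filtered by the number of letters `x₀`: the `m`-th step in
weight `N` consists of the elements of `dm_N` all of whose words contain at least `m` letters `x₀`. If
`dm` is freely generated by elements of the weights `3, 5, 7, …` in the expected way, then the `m`-th
layer (the quotient of two successive steps) of `dm_N` vanishes if `N` and `m` have different parity.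
For the filtration by the number of letters `x₁` (the depth) this is known, for the letters `x₀` it was
known for `m ≤ 3`. It is proved here for `m = 4`.

The proof. Let `ψ ∈ dm` be homogeneous of odd weight, with at least four letters `x₀` in each word, and
let `G(a₀, …, a₄)` be the coefficient of `x₁^{a₀} x₀ x₁^{a₁} x₀ ⋯ x₀ x₁^{a₄}`. By the library `G` is
invariant under cyclic permutations and reversal, and it is killed by the shuffles of one of the
arguments `a₁, …, a₄` with the three others. Therefore it is antisymmetric (`cf_alt`), and so is the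
polynomial `F(t₀, …, t₄) = ∑ G(a) t^a`. As `ψ` is a Lie polynomial, for `p' = p + δ`
`F(p',p,q,r,s) + F(p',q',q,r,s) + F(p',q',r',r,s) + F(p',q',r',s',s) = 0` (`prism`).
By antisymmetry this gives a relation for the values of `g(x, y, z) = F(x, y, z, u, v)` at the
triples out of `x, x + δ, y, y + δ`, and by induction on `n` it follows that `g(x, x + δ, x + n δ)` is
a periodic, hence constant polynomial in `x`. It vanishes at `x = u`. So `g` vanishes at all these
points, and `F = 0` (`Pri.zero`).
-/

set_option autoImplicit false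

namespace Pool.Agent.Results.MP_ec2393_nt.FourLettersOddWeight

open Pool.Agent.H777R4.DM

/-- the elements of `dm` of weight `N` -/
def dmN (N : ℕ) : Submodule ℚ A where
  carrier := {ψ | IsDM ψ ∧ ∀ u, co ψ u ≠ 0 → u.length = N}
  add_mem' := by
    rintro ψ φ ⟨h1, h2⟩ ⟨h3, h4⟩
    refine ⟨isDM_add h1 h3, fun u hu => ?_⟩
    rw [co_add] at hu
    by_cases h : co ψ u = 0
    · refine h4 u fun h' => hu ?_
      rw [h, h', add_zero]
    · exact h2 u h
  zero_mem' := ⟨isDM_zero, fun u hu => absurd (co_zero u) hu⟩
  smul_mem' := by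
    rintro c ψ ⟨h1, h2⟩
    refine ⟨isDM_smul h1 c, fun u hu => h2 u fun h' => hu ?_⟩
    rw [co_smul, h', mul_zero]

/-- the coefficient of a word -/
noncomputable def coef (N : ℕ) (u : List (Fin 2)) : dmN N →ₗ[ℚ] ℚ where
  toFun ψ := co (ψ : A) u
  map_add' _ _ := co_add _ _ _
  map_smul' _ _ := co_smul _ _ _

/-- the words of length `N` which are `x₀^{N-1} x₁` or have exactly three letters `x₀` -/
noncomputable def threes (N : ℕ) : Finset (List (Fin 2)) :=
  open Classical in
  ((Finset.univ : Finset (Fin N → Fin 2)).image List.ofFn).filter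
    (fun u => u = List.replicate (N - 1) 0 ++ [1] ∨ u.count 0 = 3)

theorem mem_threes {N : ℕ} (u : List (Fin 2)) (hl : u.length = N)
    (h : u = List.replicate (N - 1) 0 ++ [1] ∨ u.count 0 = 3) : u ∈ threes N := by
  classical
  unfold threes
  rw [Finset.mem_filter, Finset.mem_image]
  refine ⟨?_, h⟩
  subst hl
  exact ⟨u.get, Finset.mem_univ _, List.ofFn_get u⟩

theorem vanish {N : ℕ} (hN : Odd N) (ψ : A) (h : IsDM ψ) (hl : ∀ u, co ψ u ≠ 0 → u.length = N)
    (h4 : ∀ u, co ψ u ≠ 0 → 4 ≤ u.count 0) (u : List (Fin 2)) (hu : co ψ u ≠ 0) :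
    5 ≤ u.count 0 := by
  have h1 := h4 u hu
  by_contra hlt
  exact hu (Pool.Agent.U691.LL.four_zero h hl hN h4 u (by omega))

/-- Let `N` be odd.

1. An element of `dm` of weight `N` all of whose words contain at least four letters `x₀` contains at
least five letters `x₀` in each of its words.

2. For every word `w` of length `N` with exactly four letters `x₀` there is a rational linear
combination of the word `x₀^{N-1} x₁` and of words with exactly three letters `x₀` which has the same
coefficient as `w` in all elements of `dm`. -/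
theorem result (N : ℕ) (hN : Odd N) :
    (∀ ψ : A, IsDM ψ → (∀ u, co ψ u ≠ 0 → u.length = N ∧ 4 ≤ u.count 0) →
      ∀ u, co ψ u ≠ 0 → 5 ≤ u.count 0) ∧
    (∀ w : List (Fin 2), w.length = N → w.count 0 = 4 →
      ∃ (S : Finset (List (Fin 2))) (c : List (Fin 2) → ℚ),
        (∀ u ∈ S, u = List.replicate (N - 1) 0 ++ [1] ∨ (u.length = N ∧ u.count 0 = 3)) ∧
        ∀ ψ : A, IsDM ψ → co ψ w = ∑ u ∈ S, c u * co ψ u) := by
  refine ⟨fun ψ h hψ => vanish hN ψ h (fun u hu => (hψ u hu).1) (fun u hu => (hψ u hu).2),
    fun w hw hw4 => ?_⟩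
  have hker : (⨅ u : threes N, LinearMap.ker (coef N (u : List (Fin 2)))) ≤
      LinearMap.ker (coef N w) := by
    intro ψ hψ
    rw [Submodule.mem_iInf] at hψ
    rw [LinearMap.mem_ker]
    obtain ⟨ψ, hdm, hl⟩ := ψ
    have hz : ∀ u ∈ threes N, co ψ u = 0 := fun u hu => hψ ⟨u, hu⟩
    show co ψ w = 0
    by_contra hne
    have h0 : co ψ (List.replicate (N - 1) 0 ++ [1]) = 0 := by
      apply hz
      apply mem_threes _ _ (Or.inl rfl)
      obtain ⟨k, hk⟩ := hN
      simp
      omega
    have h3 := fun u hu => Y759.QS.filt_odd hdm hl hN h0 u hu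
    have h4 : ∀ u, co ψ u ≠ 0 → 4 ≤ u.count 0 := by
      intro u hu
      have h5 := h3 u hu
      by_contra hlt
      exact hu (hz u (mem_threes u (hl u hu) (Or.inr (by omega))))
    have h5 := vanish hN ψ hdm hl h4 w hne
    omega
  have hspan := mem_span_of_iInf_ker_le_ker hker
  rw [Submodule.mem_span_range_iff_exists_fun] at hspan
  obtain ⟨c, hc⟩ := hspan
  classical
  refine ⟨threes N, fun u => if hu : u ∈ threes N then c ⟨u, hu⟩ else 0, ?_, ?_⟩
  · intro u hu
    unfold threes at hu
    rw [Finset.mem_filter, Finset.mem_image] at hu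
    obtain ⟨⟨a, -, rfl⟩, h⟩ := hu
    rcases h with h | h
    · exact Or.inl h
    · exact Or.inr ⟨List.length_ofFn, h⟩
  · intro ψ hψ
    have hcomp := Pool.Agent.H217R3.DMC.taskComp ψ N hψ
    have hmem : comp N ψ ∈ dmN N := ⟨hcomp, fun u hu => by
      by_contra hne
      rw [co_comp, if_neg hne] at hu
      exact hu rfl⟩
    have h1 := congrArg (fun L => L ⟨comp N ψ, hmem⟩) hc
    simp only [LinearMap.sum_apply, LinearMap.smul_apply, smul_eq_mul] at h1
    have h2 : ∀ u : List (Fin 2), u.length = N → coef N u ⟨comp N ψ, hmem⟩ = co ψ u := by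
      intro u hu
      show co (comp N ψ) u = _
      rw [co_comp, if_pos hu]
    rw [h2 w hw] at h1
    rw [← h1, ← Finset.sum_coe_sort (threes N)]
    refine Finset.sum_congr rfl fun u _ => ?_
    have hul : (u : List (Fin 2)).length = N := by
      have := u.2
      unfold threes at this
      rw [Finset.mem_filter, Finset.mem_image] at this
      obtain ⟨⟨a, -, h⟩, -⟩ := this
      rw [← h, List.length_ofFn]
    beta_reduce
    rw [h2 _ hul, dif_pos u.2]

end Pool.Agent.Results.MP_ec2393_nt.FourLettersOddWeight
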