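import Pool.Agent.U54.MT.M

/-!
# The part of an element of `dm` with the fewest letters `x₀`: vanishing on diagonals

Let `ψ ∈ dm` be homogeneous of weight `N` such that every word of `ψ` has at least `m ≥ 2` letters `x₀`.
The coefficients of the words `x₁^{e₀} x₀ x₁^{e₁} ⋯ x₀ x₁^{e_m}` with exactly `m` letters `x₀` are the
coefficients of a polynomial `f(X₀, …, X_m)`. We show: if the last `z ≥ 1` variables are set equal, then `f`
vanishes to order `z` where the other `m + 1 - z` variables are equal. (By the cyclic symmetry of `f`, which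
is in the starting library, the `z` variables may be any cyclically consecutive ones.)

Proof. Write `f(x, w^z)` for the value with `z` last arguments `w`. By the relations of the shuffles with
`x₀` (`∂ψ/∂x₀ = 0`), `f(x₁, …, x_r, w^z)` is `(-1)^(z-1)` times the sum of the values
`f(x₁^{k₁}, …, x_r^{k_r}, w)` over `k_i ≥ 1`, `k₁ + ⋯ + k_r = m`. By the cyclic symmetry and the relations
of the shuffles with one exponent (starting library) the sum over all insertions of one letter `y^a`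
vanishes. Write the letters as `x_i^a = y^a + (x_i^a - y^a)` and mark the letters `x_i^a - y^a` and the last
letter of each group but the last one: the words with an unmarked letter add up to such sums over insertions,
and the words with all `m` letters marked have at least `z` letters in the ideal.
-/

set_option autoImplicit false

namespace Pool.Agent.Results.MP_ec2393_nt.MomentTheorem

open Pool.Agent.H777R4.DM

/-- The word `x₁^{a₀} x₀ x₁^{a₁} ⋯ x₀ x₁^{a_m}` of the list `[a₀, …, a_m]`. -/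
def word : List ℕ → List (Fin 2)
  | [] => []
  | [a] => List.replicate a 1
  | a :: b :: l => List.replicate a 1 ++ 0 :: word (b :: l)

theorem word_eq (L : List ℕ) : word L = Pool.Agent.R241.DL.blk L := by
  induction L with
  | nil => rfl
  | cons a L ih =>
    cases L with
    | nil => rfl
    | cons b L => rw [word, Pool.Agent.R241.DL.blk, ih]

/-- The list `[a₁, …, a_r, 0, …, 0]` with `z` zeros; its word is `x₁^{a₁} x₀ ⋯ x₀ x₁^{a_r} x₀^z`. -/
def tail {r N : ℕ} (z : ℕ) (a : Fin r → Fin (N + 1)) : List ℕ :=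
  List.ofFn (fun i => (a i : ℕ)) ++ List.replicate z 0

/-- `f(x₀, …, x_m) = ∑ (ψ | x₁^{e₀} x₀ x₁^{e₁} ⋯ x₀ x₁^{e_m}) x₀^{e₀} ⋯ x_m^{e_m}`, the sum over the
exponents `0 ≤ e_i ≤ N`. -/
noncomputable def gen (ψ : A) (N m : ℕ) {R : Type} [CommRing R] [Algebra ℚ R] (x : Fin (m + 1) → R) : R :=
  ∑ e : Fin (m + 1) → Fin (N + 1),
    algebraMap ℚ R (co ψ (word (List.ofFn fun i => (e i : ℕ)))) * ∏ i, x i ^ (e i : ℕ)

theorem gen_mem {ψ : A} {N m : ℕ} (hψ : IsDM ψ) (h2 : 2 ≤ m)
    (h : ∀ u, co ψ u ≠ 0 → u.length = N ∧ m ≤ u.count 0) {r z : ℕ} (hz : 1 ≤ z)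
    (hrz : r + z = m + 1) {R : Type} [CommRing R] [Algebra ℚ R] (I : Ideal R)
    (x : Fin (m + 1) → R) (y w : R)
    (hx : ∀ i : Fin (m + 1), (i : ℕ) < r → x i - y ∈ I)
    (hw : ∀ i : Fin (m + 1), r ≤ (i : ℕ) → x i = w) : gen ψ N m x ∈ I ^ z := by
  have h1 := Pool.Agent.U54.MT.moment (R := R) hψ (fun u hu => (h u hu).1) (fun u hu => (h u hu).2) h2
    (I := I) y w (fun i : Fin r => x ⟨i, by omega⟩) (fun i => hx _ i.2) (List.ofFn fun i : Fin r => i) z hz
    (by simpa using hrz)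
  have h3 : (List.ofFn fun i : Fin r => i).map (fun j : Fin r => Pool.Agent.U54.MT.P (x ⟨j, by omega⟩)) ++
      List.replicate z (Pool.Agent.U54.MT.P w) =
      List.ofFn (fun i : Fin (m + 1) => Pool.Agent.U54.MT.P (x i)) := by
    apply List.ext_getElem
    · simp
      omega
    · intro i h4 h5
      rw [List.getElem_ofFn]
      rcases Nat.lt_or_ge i r with h6 | h6
      · rw [List.getElem_append_left (by simpa using h6)]
        simp
      · rw [List.getElem_append_right (by simpa using h6), List.getElem_replicate, hw _ h6]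
  rw [h3, Pool.Agent.U54.MT.sm_ofFn] at h1
  unfold gen
  convert h1 using 1
  refine Finset.sum_congr rfl fun a _ => ?_
  rw [mul_comm]
  congr 1
  unfold Pool.Agent.U54.MT.Fc
  rw [word_eq]

theorem general {ψ : A} {N m : ℕ} (hψ : IsDM ψ) (h2 : 2 ≤ m)
    (h : ∀ u, co ψ u ≠ 0 → u.length = N ∧ m ≤ u.count 0) {r z : ℕ} (hz : 1 ≤ z)
    (hrz : r + z = m + 1) {R : Type} [CommRing R] [Algebra ℚ R] (I : Ideal R) (x : Fin r → R) (y : R)
    (hx : ∀ i, x i - y ∈ I) :
    ∑ a : Fin r → Fin (N + 1), algebraMap ℚ R (co ψ (word (tail z a))) * ∏ i, x i ^ (a i : ℕ) ∈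
      I ^ z := by
  have h1 := Pool.Agent.U54.MT.moment (R := R) hψ (fun u hu => (h u hu).1) (fun u hu => (h u hu).2) h2
    y 0 x hx (List.ofFn fun i : Fin r => i) z hz (by simpa using hrz)
  rw [Pool.Agent.U54.MT.sm_Zs, List.map_ofFn, Pool.Agent.U54.MT.sm_ofFn] at h1
  convert h1 using 1
  refine Finset.sum_congr rfl fun a _ => ?_
  rw [mul_comm]
  congr 1
  unfold Pool.Agent.U54.MT.Fc
  rw [word_eq]
  rfl

theorem coeff_prod {r : ℕ} (a : Fin r → ℕ) (γ : Fin r →₀ ℕ) :
    MvPolynomial.coeff γ (∏ i, (1 + MvPolynomial.X i : MvPolynomial (Fin r) ℚ) ^ a i) =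
      ∏ i, ((a i).choose (γ i) : ℚ) := by
  have h1 : ∀ i : Fin r, (1 + MvPolynomial.X i : MvPolynomial (Fin r) ℚ) ^ a i =
      ∑ k ∈ Finset.range (a i + 1), MvPolynomial.monomial (Finsupp.single i k) ((a i).choose k : ℚ) := by
    intro i
    rw [add_comm, add_pow]
    refine Finset.sum_congr rfl fun k _ => ?_
    rw [one_pow, mul_one, MvPolynomial.X_pow_eq_monomial, mul_comm, ← map_natCast MvPolynomial.C,
      MvPolynomial.C_mul_monomial, mul_one]
  have h2 : ∀ κ : Fin r → ℕ, ∏ i, MvPolynomial.monomial (Finsupp.single i (κ i)) ((a i).choose (κ i) : ℚ) =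
      MvPolynomial.monomial (Finsupp.equivFunOnFinite.symm κ) (∏ i, ((a i).choose (κ i) : ℚ)) := by
    intro κ
    have hs : (∑ i, Finsupp.single i (κ i)) = Finsupp.equivFunOnFinite.symm κ := by
      ext j
      simp [Finsupp.single_apply]
    rw [← MvPolynomial.monomial_sum_prod, hs]
  rw [Finset.prod_congr rfl fun i _ => h1 i, Finset.prod_univ_sum, MvPolynomial.coeff_sum]
  simp only [h2, MvPolynomial.coeff_monomial]
  by_cases hle : ∀ i, γ i ≤ a i
  · rw [Finset.sum_eq_single_of_mem (fun i => γ i)]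
    · rw [if_pos (by ext i; simp)]
    · rw [Fintype.mem_piFinset]
      intro i
      exact Finset.mem_range.2 (Nat.lt_succ_of_le (hle i))
    · intro κ _ hκ
      rw [if_neg]
      intro h
      apply hκ
      funext i
      rw [← h]
      simp
  · push Not at hle
    obtain ⟨i, hi⟩ := hle
    rw [Finset.prod_eq_zero (Finset.mem_univ i) (by rw [Nat.choose_eq_zero_of_lt hi]; simp)]
    refine Finset.sum_eq_zero fun κ hκ => ?_
    rw [Fintype.mem_piFinset] at hκ
    rw [if_neg]
    intro h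
    have h3 := Finset.mem_range.1 (hκ i)
    have h4 : γ i = κ i := by rw [← h]; simp
    omega

/-- Let `m ≥ 2`, let `ψ ∈ dm` be homogeneous of weight `N` with at least `m` letters `x₀` in each word,
and let `f(X₀, …, X_m)` be the generating polynomial of its coefficients at the words
`x₁^{e₀} x₀ x₁^{e₁} ⋯ x₀ x₁^{e_m}`. Let `r + z = m + 1`, `z ≥ 1`.
1. Let `R` be a commutative `ℚ`-algebra, `I` an ideal of `R`, `x₀, …, x_{r-1}` elements of `R` which are
congruent to an element `y` modulo `I`, and `w ∈ R`. Then `f(x₀, …, x_{r-1}, w, …, w) ∈ I ^ z`.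
2. Let `c(a)` be the coefficient in `ψ` of the word `x₁^{a₁} x₀ x₁^{a₂} ⋯ x₀ x₁^{a_r} x₀^z`. Then
`∑ c(a) binom(a₁, γ₁) ⋯ binom(a_r, γ_r) = 0` if `γ₁ + ⋯ + γ_r < z`.
3. For `r = 2` the polynomial `∑ c(a₁, a₂) X^{a₁} Y^{a₂}` is divisible by `(X - Y)^(m-1)`. -/
theorem result (ψ : A) (N m : ℕ) (hψ : IsDM ψ) (h2 : 2 ≤ m)
    (h : ∀ u, co ψ u ≠ 0 → u.length = N ∧ m ≤ u.count 0) :
    (∀ (r z : ℕ), 1 ≤ z → r + z = m + 1 → ∀ (R : Type) [CommRing R] [Algebra ℚ R] (I : Ideal R)
      (x : Fin (m + 1) → R) (y w : R), (∀ i : Fin (m + 1), (i : ℕ) < r → x i - y ∈ I) →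
      (∀ i : Fin (m + 1), r ≤ (i : ℕ) → x i = w) → gen ψ N m x ∈ I ^ z) ∧
    (∀ (r z : ℕ), 1 ≤ z → r + z = m + 1 → ∀ γ : Fin r → ℕ, ∑ i, γ i < z →
      ∑ a : Fin r → Fin (N + 1), (∏ i, ((a i : ℕ).choose (γ i) : ℚ)) * co ψ (word (tail z a)) = 0) ∧
    (MvPolynomial.X 0 - MvPolynomial.X 1 : MvPolynomial (Fin 2) ℚ) ^ (m - 1) ∣
      ∑ a : Fin 2 → Fin (N + 1), MvPolynomial.C (co ψ (word (tail (m - 1) a))) *
        (MvPolynomial.X 0 ^ (a 0 : ℕ) * MvPolynomial.X 1 ^ (a 1 : ℕ)) := by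
  have h3 : ∀ (r z : ℕ), 1 ≤ z → r + z = m + 1 → ∀ γ : Fin r → ℕ, ∑ i, γ i < z →
      ∑ a : Fin r → Fin (N + 1), (∏ i, ((a i : ℕ).choose (γ i) : ℚ)) * co ψ (word (tail z a)) = 0 := by
    intro r z hz hrz γ hγ
    have h4 := general hψ h2 h hz hrz (MvPolynomial.idealOfVars (Fin r) ℚ)
      (fun i => 1 + MvPolynomial.X i) 1 (by
        intro i
        rw [add_sub_cancel_left]
        exact Ideal.subset_span ⟨i, rfl⟩)
    rw [MvPolynomial.mem_pow_idealOfVars_iff'] at h4
    have h5 := h4 (Finsupp.equivFunOnFinite.symm γ) (by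
      rw [Finsupp.degree_eq_sum]
      simpa using hγ)
    rw [MvPolynomial.coeff_sum] at h5
    rw [← h5]
    refine Finset.sum_congr rfl fun a _ => ?_
    rw [MvPolynomial.algebraMap_eq, MvPolynomial.coeff_C_mul, coeff_prod, mul_comm]
    simp
  refine ⟨fun r z hz hrz R _ _ I x y w hx hw => gen_mem hψ h2 h hz hrz I x y w hx hw, h3, ?_⟩
  · have h4 := general hψ h2 h (show 1 ≤ m - 1 by omega) (show 2 + (m - 1) = m + 1 by omega)
      (Ideal.span {(MvPolynomial.X 0 - MvPolynomial.X 1 : MvPolynomial (Fin 2) ℚ)})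
      (fun i => MvPolynomial.X i) (MvPolynomial.X 1) (by
        intro i
        fin_cases i
        · exact Ideal.subset_span rfl
        · simp)
    rw [Ideal.span_singleton_pow, Ideal.mem_span_singleton] at h4
    simpa [Fin.prod_univ_two, MvPolynomial.algebraMap_eq] using h4

end Pool.Agent.Results.MP_ec2393_nt.MomentTheorem
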