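import Pool.Agent.U691.DM.Dep3

/-! MP_ec2393_nt: elements of the double shuffle Lie algebra, or only of `Lie[x₀, x₁]`, which are not zero in
depth one satisfy no relation of degree at most `D`, not even modulo words with more letters `x₁`, if their
weights lie in a set of odd numbers of positive density which depends only on `D`.

Elements of all odd weights `3, 5, 7, …` satisfy such relations in degree two, one for each even period polynomial:
for example `{σ₃, σ₉} = 3 {σ₅, σ₇}` modulo words with at least three letters `x₁`, after normalization.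

(1) Let `q` be a power of a prime and `D c < q`.  For weights `m + 1`, `m` even and congruent to `c` modulo `q`,
there are no relations of degree at most `D`.  (For `c = 1` and an odd prime `q > D` these are the odd weights
congruent to `2` modulo `q`.)
(2) For the odd weights congruent to `2`, `3` or `4` modulo `5` there are no relations of degree two; these are
three fifths of all odd weights.

Proof. Let `L_m` be the operator `g ↦ f g + D_f g` for `f = (ad x₀)^m x₁`, `m` even. Modulo words with more letters
`x₁`, the coefficient of `L_m g` at `x₀^(k₁) x₁ ⋯ x₀^(k_d) x₁` is the sum of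
`((-1)^(k_i) binom(m, k_i) - (-1)^(k_(i+1)) binom(m, k_(i+1))) g(…, k_i + k_(i+1) - m, …)` for `i < d`, and of
`g(k_1, …, k_(d-1))` if `k_d = m`.  It is enough to show that the vectors of coefficients of the products
`L_(m_1) ⋯ L_(m_d) 1` are linearly independent modulo `p`.
(1) Let `q` be a power of `p`, `m_i = q a_i + c` and `d c < q`. By the theorem of Lucas the product has nonzero
coefficients only where the last digits (in base `q`) of the `k_i` have the sum `d c`. At `k_1` with last digit
`d c` and `k_i = q j_i`, `i ≥ 2`, only one of the terms remains, and the coefficient is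
`± binom(a_1, j_2) ⋯ binom(a_(d-1), j_d)`. This is a triangular matrix.
(2) Let `f_m` be the coefficients of a relation between products `L_m L_(s-m) 1` modulo `5`, `E_k` the sum of
`f_m binom(m, k)`. Then `f_l + (-1)^k E_k - (-1)^l E_l = 0` for `k + l = s`, and `E_(5 j + i)` is the sum of
`binom(c, i) U_c(j)`, `c = 1, 2, 3`, where `U_c(j)` is the sum of `f_(5 a + c) binom(a, j)`. The relations for
`k` with last digit `4`, or the last digit of `s`, have the form `∑ α_c U_c = 0`, so `∑ α_c f_(5 a + c) = 0`. As `f` vanishes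
at odd numbers, this is enough unless `s ≡ 4` modulo `5`, when `f_(5 a + 2) = 0`, `f_(5 a + 1) = - f_(5 a + 3)` and the
other relations give `f_(5 a + 3) = (-1)^a U_3(a)`; at the last `a` with `f_(5 a + 3) ≠ 0` this is `- f_(5 a + 3)`. -/

set_option autoImplicit false

namespace Pool.Agent.Results.MP_ec2393_nt.ResidueClassWeights

open Pool.Agent.H777R4.DM

attribute [local instance 100] LieRing.ofAssociativeRing

/-- There are no relations of degree at most `D` between arbitrary elements `ψ₁, …, ψₙ` of `Lie[x₀, x₁]` of the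
weights `w₁, …, wₙ` with a nonzero coefficient at `x₀^(wᵢ - 1) x₁`: there is a linear map `φ` on `ℚ⟨X₁, …, Xₙ⟩`
with `φ Xᵢ = ψᵢ` which carries the bracket `P Q - Q P` of the free Lie algebra on `X₁, …, Xₙ` to the Ihara bracket,
and if `P` has a nonzero coefficient at a word of length `d ≤ D`, then `φ P` has a nonzero coefficient at a word
with at most `d` letters `x₁`. -/
def FreeUpTo (D n : ℕ) (w : Fin n → ℕ) : Prop :=
  ∀ ψ : Fin n → A, (∀ i, ψ i ∈ LieX) → (∀ i u, co (ψ i) u ≠ 0 → u.length = w i) →
    (∀ i, co (ψ i) (List.replicate (w i - 1) 0 ++ [1]) ≠ 0) →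
    ∃ φ : Al (Fin n) →ₗ[ℚ] A, (∀ i, φ (wd [i]) = ψ i) ∧
      (∀ P ∈ LieN n, ∀ Q ∈ LieN n, φ (P * Q - Q * P) = ihara (φ P) (φ Q)) ∧
      ∀ P u, co P u ≠ 0 → u.length ≤ D → ∃ v, co (φ P) v ≠ 0 ∧ v.count 1 ≤ u.length

/-- **Theorem.** (1) Let `p` be a prime, `c ≥ 1` and `D c < p^r`.  For different even numbers `m₁, …, mₙ`
congruent to `c` modulo `p^r`, elements of `Lie[x₀, x₁]` of the weights `mᵢ + 1` which are not zero in depth one
satisfy no relation of degree at most `D` under the Ihara bracket, not even modulo words with more letters `x₁`.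

(2) The same holds in degree two for different odd weights congruent to `2`, `3` or `4` modulo `5`. -/
theorem result :
    (∀ (p r c D n : ℕ) (m : Fin n → ℕ), p.Prime → 1 ≤ c → D * c < p ^ r → Function.Injective m →
      (∀ i, Even (m i) ∧ m i % p ^ r = c) → FreeUpTo D n (fun i => m i + 1)) ∧
    (∀ (n : ℕ) (w : Fin n → ℕ), Function.Injective w →
      (∀ i, Odd (w i) ∧ (w i % 5 = 2 ∨ w i % 5 = 3 ∨ w i % 5 = 4)) → FreeUpTo 2 n w) := by
  constructor
  · intro p r c D n m hp hc hD hinj hm ψ hL hw h1
    obtain ⟨b, hb⟩ : ∃ b : Fin n → ℕ, ∀ i, m i = 2 * b i :=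
      ⟨fun i => m i / 2, fun i => by
        obtain ⟨r, hr⟩ := (hm i).1
        show m i = 2 * (m i / 2)
        omega⟩
    refine ⟨PhiN ψ, (Pool.Agent.H358R3.DM.taskFinalN n ψ).1,
      (Pool.Agent.H358R3.DM.taskFinalN n ψ).2, fun P u hu huD => ?_⟩
    refine Pool.Agent.U691.DM.dep_class p r c D hp hc hD n b (fun i => ?_) (fun i j hij => hinj ?_) ψ hL
      (fun i u hu => ?_) (fun i => ?_) P u hu huD
    · rw [← hb i]
      exact (hm i).2
    · rw [hb i, hb j, hij]
    · rw [← hb i]
      exact hw i u hu
    · have h2 := h1 i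
      simp only [Nat.add_sub_cancel] at h2
      rw [← hb i]
      exact h2
  · intro n w hinj hw5 ψ hL hw h1
    obtain ⟨b, hb⟩ : ∃ b : Fin n → ℕ, ∀ i, w i = 2 * b i + 1 :=
      ⟨fun i => w i / 2, fun i => by
        obtain ⟨r, hr⟩ := (hw5 i).1
        show w i = 2 * (w i / 2) + 1
        omega⟩
    refine ⟨PhiN ψ, (Pool.Agent.H358R3.DM.taskFinalN n ψ).1,
      (Pool.Agent.H358R3.DM.taskFinalN n ψ).2, fun P u hu huD => ?_⟩
    refine Pool.Agent.U691.DM.dep_five n b (fun i => ?_) (fun i j hij => hinj ?_) ψ hL
      (fun i u hu => ?_) (fun i => ?_) P u hu huD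
    · have h2 := (hw5 i).2
      have h3 := hb i
      omega
    · rw [hb i, hb j, hij]
    · rw [← hb i]
      exact hw i u hu
    · have h2 := h1 i
      rw [hb i] at h2
      simp only [Nat.add_sub_cancel] at h2
      exact h2

end Pool.Agent.Results.MP_ec2393_nt.ResidueClassWeights
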